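import Pool.Agent.Lib.MP_16285c_agP.AllP

/-!
# The strong Zariski dense orbit conjecture for rational self-maps with `λ_r < λ₁` for all `r ≥ 3`, in every dimension

Let `k` be an algebraically closed field of characteristic zero, `I` a prime ideal of `k[y₁, …, y_m]`, `X = V(I)` in affine
`m`-space, of dimension `n ≥ 3`, and `f` a dominant rational self-map of `X`, given by the homomorphism
`φ = f* : k(X) → k(X)`. Suppose that the dynamical degrees satisfy `λ_r(f) < λ₁(f)` for `3 ≤ r ≤ n`
(`λ_n(f)` is the topological degree). If `f` has no non-constant invariant rational function then for every non-empty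
open set `b ≠ 0` of `X` there is a point of `X` whose `f`-orbit is well defined, contained in this open set, and Zariski
dense in `X`. For instance all birational self-maps of threefolds with `λ₁ > 1` satisfy the hypothesis.
-/

set_option autoImplicit false

namespace Pool.Agent.Results.MP_16285c_ag.FirstDegree

open MvPolynomial

/-- The coordinate ring of the affine variety `V(I)` in affine `m`-space. -/
abbrev Coord {k : Type} [Field k] {m : ℕ} (I : Ideal (MvPolynomial (Fin m) k)) : Type :=
  MvPolynomial (Fin m) k ⧸ I

/-- The field of rational functions on `V(I)` (`I` a prime ideal). -/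
abbrev RatFun {k : Type} [Field k] {m : ℕ} (I : Ideal (MvPolynomial (Fin m) k)) : Type :=
  FractionRing (Coord I)

/-- The rational function on `V(I)` defined by a polynomial. -/
noncomputable def restrict {k : Type} [Field k] {m : ℕ} (I : Ideal (MvPolynomial (Fin m) k))
    (A : MvPolynomial (Fin m) k) : RatFun I :=
  algebraMap (Coord I) (RatFun I) (Ideal.Quotient.mk I A)

/-- `x` is a point of `V(I)`. -/
def IsPoint {k : Type} [Field k] {m : ℕ} (I : Ideal (MvPolynomial (Fin m) k)) (x : Fin m → k) : Prop :=
  ∀ A ∈ I, eval x A = 0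

/-- The rational function `h` is defined at the point `x` of `V(I)` and has the value `c` there: `h = A / B` with
polynomials `A`, `B`, `B(x) ≠ 0`, `A(x) = c B(x)`. -/
def HasValue {k : Type} [Field k] {m : ℕ} (I : Ideal (MvPolynomial (Fin m) k)) (h : RatFun I)
    (x : Fin m → k) (c : k) : Prop :=
  ∃ A B : MvPolynomial (Fin m) k, eval x B ≠ 0 ∧ h * restrict I B = restrict I A ∧
    eval x A = c * eval x B

/-- The rational self-map `f` of `V(I)` with `f* = φ` is defined at the point `x`, and `f(x) = x'`. -/
def MapsTo {k : Type} [Field k] {m : ℕ} (I : Ideal (MvPolynomial (Fin m) k))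
    (φ : RatFun I →ₐ[k] RatFun I) (x x' : Fin m → k) : Prop :=
  ∀ i : Fin m, HasValue I (φ (restrict I (X i))) x (x' i)

/-- The linear combinations of the rational functions `g_0, …, g_{m-1}` with the coefficients `A`. -/
noncomputable def linComb {k : Type} [Field k] {m : ℕ} (I : Ideal (MvPolynomial (Fin m) k)) [I.IsPrime]
    {c : ℕ} (A : Fin c → Fin m → k) (g : Fin m → RatFun I) (i : Fin c) : RatFun I :=
  ∑ j, algebraMap k (RatFun I) (A i j) * g j

/-- The field generated by linear combinations of the coordinates and linear combinations of the components of `g`. -/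
noncomputable def mixedField {k : Type} [Field k] {m : ℕ} (I : Ideal (MvPolynomial (Fin m) k)) [I.IsPrime]
    {s r : ℕ} (A : Fin s → Fin m → k) (B : Fin r → Fin m → k) (g : Fin m → RatFun I) :
    IntermediateField k (RatFun I) :=
  IntermediateField.adjoin k (Set.range (linComb I A fun i => restrict I (X i)) ∪ Set.range (linComb I B g))

/-- The `r`-th degree of the rational map with the components `g` of `V(I)`, `n = dim V(I)`: the largest degree of `k(X)`
over a field generated by `n - r` linear combinations of the coordinates and `r` linear combinations of the components of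
`g` (infinite degrees are not counted); this is the number of points of `X` in which `n - r` general affine hyperplanes
meet the inverse images under `g` of `r` general affine hyperplanes. -/
noncomputable def degree {k : Type} [Field k] {m : ℕ} (I : Ideal (MvPolynomial (Fin m) k)) [I.IsPrime]
    (n r : ℕ) (g : Fin m → RatFun I) : ENNReal :=
  ⨆ (A : Fin (n - r) → Fin m → k) (B : Fin r → Fin m → k),
    (Module.finrank (mixedField I A B g) (RatFun I) : ENNReal)

/-- The `r`-th dynamical degree `λ_r(f) = limsup (deg_r f^t)^(1/t)`, `n = dim V(I)`. -/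
noncomputable def lam {k : Type} [Field k] {m : ℕ} (I : Ideal (MvPolynomial (Fin m) k)) [I.IsPrime]
    (n r : ℕ) (φ : RatFun I →ₐ[k] RatFun I) : ENNReal :=
  Filter.limsup (fun t : ℕ => degree I n r (fun i => (φ ^ t) (restrict I (X i))) ^ ((t : ℝ)⁻¹)) Filter.atTop

/-- **The strong form of the Zariski dense orbit conjecture for all irreducible varieties of dimension `n ≥ 3` and all
dominant rational self-maps with `λ_r < λ₁` for `3 ≤ r ≤ n`.** -/
theorem result : ∀ (k : Type) [Field k] [IsAlgClosed k] [CharZero k] (m n : ℕ)
    (I : Ideal (MvPolynomial (Fin m) k)) [I.IsPrime], Algebra.trdeg k (Coord I) = n → 3 ≤ n →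
    ∀ φ : RatFun I →ₐ[k] RatFun I, (∀ r : ℕ, 3 ≤ r → r ≤ n → lam I n r φ < lam I n 1 φ) →
    (∀ h : RatFun I, φ h = h → ∃ c : k, h = algebraMap k (RatFun I) c) →
    ∀ b : MvPolynomial (Fin m) k, b ∉ I →
    ∃ x : ℕ → Fin m → k, (∀ t, IsPoint I (x t)) ∧ (∀ t, MapsTo I φ (x t) (x (t + 1))) ∧
      (∀ t, eval (x t) b ≠ 0) ∧
      ∀ A : MvPolynomial (Fin m) k, (∀ t, eval (x t) A = 0) → A ∈ I := by
  intro k _ _ _ m n I _ hd hn φ hlam hφ b hb
  obtain ⟨q, rfl⟩ : ∃ q, n = q + 3 := ⟨n - 3, by omega⟩
  obtain ⟨x, h1, h2⟩ := Pool.Agent.Lib.MP_16285c_agX.varP k m q I hd φ hlam hφ b hb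
  refine ⟨x, fun t => (h1 t).1, fun t => (h1 t).2.2, fun t => (h1 t).2.1, fun A hA => ?_⟩
  by_contra hAI
  obtain ⟨t, ht⟩ := h2 A hAI
  exact ht (hA t)

end Pool.Agent.Results.MP_16285c_ag.FirstDegree
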