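import Pool.Agent.Lib.MP_16285c_agT.VarK

/-!
# The strong Zariski dense orbit conjecture for rational self-maps which preserve a tower of fibrations

Let `k` be an algebraically closed field of characteristic zero, `X` an irreducible variety in affine `m`-space over `k`, `K`
its function field, `g_0, …, g_{m-1} ∈ K` the coordinate functions. (Conversely, if `g_0, …, g_{m-1}` generate a field `K` over
`k` then `K` is the function field of the irreducible variety `X` given by the polynomials `A` with `A(g) = 0`, and the `g_i` are
the coordinate functions on `X`.) Let `f` be a dominant rational self-map of `X`, given by the homomorphism `φ = f* : K → K`.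

Suppose that `φ` preserves intermediate fields `k = F 0 ≤ F 1 ≤ … ≤ F s = K`, that is, `f` preserves a tower of fibrations
`X = X_s → X_(s-1) → … → X_0 = point`. Let `n j` be the transcendence degree of `F j` (the dimension of `X_j`), `f_j` the
rational self-map of `X_j` induced by `f`, `T_j` its topological degree. Steps of relative dimension at most one are
arbitrary; for the other steps suppose that the relative dynamical degrees `λ_i(f_(j+1) | f_j)`, `i ≤ n (j+1) - n j - 2`
(and `i ≥ 1` if `n j = 0`) are smaller than the relative topological degree `T_(j+1) / T_j`.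

If `f` has no non-constant invariant rational function then for every non-empty open set `b ≠ 0` of `X` there is a point of
`X` whose `f`-orbit is well defined, contained in this open set, and Zariski dense in `X`.

For `s = 1` the condition is: `λ_r(f) < λ_n(f)` for `1 ≤ r ≤ n - 2`. All rational self-maps which preserve a tower of
fibrations of relative dimension one (for instance all triangular self-maps of affine space) satisfy the hypothesis.
-/

set_option autoImplicit false

namespace Pool.Agent.Results.MP_16285c_ag.Towers

open MvPolynomial

/-- `x` is a point of the irreducible variety in affine `m`-space with the coordinate functions `g`. -/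
def IsPoint {k K : Type} [Field k] [Field K] [Algebra k K] {m : ℕ} (g : Fin m → K) (x : Fin m → k) : Prop :=
  ∀ A : MvPolynomial (Fin m) k, aeval g A = 0 → eval x A = 0

/-- The rational function `h` is defined at the point `x` and has the value `c` there: `h = A(g) / B(g)` with polynomials
`A`, `B`, `B(x) ≠ 0`, `A(x) = c B(x)`. -/
def HasValue {k K : Type} [Field k] [Field K] [Algebra k K] {m : ℕ} (g : Fin m → K) (h : K) (x : Fin m → k)
    (c : k) : Prop :=
  ∃ A B : MvPolynomial (Fin m) k, eval x B ≠ 0 ∧ h * aeval g B = aeval g A ∧ eval x A = c * eval x B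

/-- The rational self-map `f` with `f* = φ` is defined at the point `x`, and `f(x) = x'`. -/
def MapsTo {k K : Type} [Field k] [Field K] [Algebra k K] {m : ℕ} (g : Fin m → K) (φ : K →ₐ[k] K)
    (x x' : Fin m → k) : Prop :=
  ∀ i : Fin m, HasValue g (φ (g i)) x (x' i)

/-- There is a point of the variety whose orbit under the rational self-map with `f* = φ` is well defined, contained in the
open set `b ≠ 0`, and Zariski dense in the variety. -/
def HasDenseOrbit {k K : Type} [Field k] [Field K] [Algebra k K] {m : ℕ} (g : Fin m → K) (φ : K →ₐ[k] K)
    (b : MvPolynomial (Fin m) k) : Prop :=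
  ∃ x : ℕ → Fin m → k, (∀ t, IsPoint g (x t)) ∧ (∀ t, MapsTo g φ (x t) (x (t + 1))) ∧
    (∀ t, eval (x t) b ≠ 0) ∧
    ∀ A : MvPolynomial (Fin m) k, (∀ t, eval (x t) A = 0) → aeval g A = 0

/-- The linear combinations of the elements `g_0, …, g_{m-1}` of `E` with the coefficients `A`. -/
noncomputable def linComb {k E : Type} [Field k] [Field E] [Algebra k E] {m c : ℕ} (A : Fin c → Fin m → k)
    (g : Fin m → E) (i : Fin c) : E :=
  ∑ j, algebraMap k E (A i j) * g j

/-- Let `E` be the function field of a variety `Y` with the coordinate functions `y`, `D` the function field of the base of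
a fibration of `Y` of relative dimension `e`. The relative `i`-th degree of the rational map with the components `g`: the
largest degree of `E` over a field generated over `D` by `e - i` linear combinations of `y` and `i` linear combinations of
`g` (infinite degrees are not counted); this is the number of points of a general fibre in which `e - i` general affine
hyperplanes meet the inverse images under `g` of `i` general affine hyperplanes. -/
noncomputable def relDegree (k : Type) {E : Type} [Field k] [Field E] [Algebra k E] (D : IntermediateField k E)
    {m : ℕ} (e i : ℕ) (y g : Fin m → E) : ENNReal :=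
  ⨆ (A : Fin (e - i) → Fin m → k) (B : Fin i → Fin m → k),
    (Module.finrank (IntermediateField.adjoin D (Set.range (linComb A y) ∪ Set.range (linComb B g))) E : ENNReal)

/-- The relative `i`-th dynamical degree `limsup (deg_i f^t)^(1/t)` of the rational self-map `f` of `Y` with `f* = φ` over
the base with the function field `D` (`e` = relative dimension). -/
noncomputable def relLam (k : Type) {E : Type} [Field k] [Field E] [Algebra k E] (D : IntermediateField k E)
    {m : ℕ} (e i : ℕ) (y : Fin m → E) (φ : E →ₐ[k] E) : ENNReal :=
  Filter.limsup (fun t : ℕ => relDegree k D e i y (fun j => (φ ^ t) (y j)) ^ ((t : ℝ)⁻¹)) Filter.atTop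

/-- The topological degree `[E : φ(E)]`. -/
noncomputable def topDegree {k E : Type} [Field k] [Field E] [Algebra k E] (φ : E →ₐ[k] E) : ℕ :=
  Module.finrank φ.fieldRange E

/-- A tower of fibrations `X = X_s → X_(s-1) → … → X_0 = point` preserved by the rational self-map of the variety `X` with
the function field `K` which is given by `φ : K → K`. -/
structure Tower {k K : Type} [Field k] [Field K] [Algebra k K] (φ : K →ₐ[k] K) where
  /-- The number of the steps. -/
  s : ℕ
  /-- The function fields `F 0 = k ≤ F 1 ≤ … ≤ F s = K` of the varieties of the tower (`F j` for `j > s` is not used). -/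
  F : ℕ → IntermediateField k K
  bot : F 0 = ⊥
  top : F s = ⊤
  mono : ∀ j < s, F j ≤ F (j + 1)
  /-- The dimensions of the varieties of the tower. -/
  n : ℕ → ℕ
  trdeg : ∀ j ≤ s, Algebra.trdeg k (F j) = n j
  /-- The numbers of the coordinates chosen. -/
  μ : ℕ → ℕ
  /-- Coordinates on the varieties of the tower. -/
  y : ∀ j, Fin (μ j) → F j
  gen : ∀ j ≤ s, IntermediateField.adjoin k (Set.range (y j)) = ⊤
  /-- The rational self-maps of the varieties of the tower: the restrictions of `φ`. -/
  ψ : ∀ j, F j →ₐ[k] F j
  restr : ∀ j ≤ s, ∀ h : F j, (ψ j h : K) = φ h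

/-- The condition for the step `X_(j+1) → X_j` of the tower: `λ_i(f_(j+1) | f_j) T_j < T_(j+1)` for the numbers `i ≥ 0` with
`1 ≤ n j + i ≤ n (j + 1) - 2`, where `λ_i(f_(j+1) | f_j)` are the relative dynamical degrees and `T_j` is the topological
degree of `f_j` (`(F j).comap (F (j + 1)).val` is `F j` as a subfield of `F (j + 1)`). -/
def Tower.StepCondition {k K : Type} [Field k] [Field K] [Algebra k K] {φ : K →ₐ[k] K} (T : Tower φ) (j : ℕ) : Prop :=
  ∀ i : ℕ, 1 ≤ T.n j + i → T.n j + i + 2 ≤ T.n (j + 1) →
    relLam k ((T.F j).comap (T.F (j + 1)).val) (T.n (j + 1) - T.n j) i (T.y (j + 1)) (T.ψ (j + 1)) *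
      (topDegree (T.ψ j) : ENNReal) < (topDegree (T.ψ (j + 1)) : ENNReal)

/-- **The strong form of the Zariski dense orbit conjecture for dominant rational self-maps which preserve a tower of
fibrations** with small relative dynamical degrees (no condition for the steps of relative dimension at most one). -/
theorem result : ∀ (k : Type) [Field k] [IsAlgClosed k] [CharZero k] (K : Type) [Field K] [Algebra k K] (m : ℕ)
    (g : Fin m → K) (φ : K →ₐ[k] K) (T : Tower φ),
    IntermediateField.adjoin k (Set.range g) = ⊤ →
    (∀ j < T.s, T.StepCondition j) →
    (∀ h : K, φ h = h → ∃ c : k, h = algebraMap k K c) →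
    ∀ b : MvPolynomial (Fin m) k, aeval g b ≠ 0 → HasDenseOrbit g φ b := by
  intro k _ _ _ K _ _ m g φ T hg hlam hφ b hb
  obtain ⟨x, h1, h2⟩ := Pool.Agent.Lib.MP_16285c_agT.towersK k K m g hg φ T.s T.F T.n T.μ T.y T.ψ T.bot T.top T.mono
    T.trdeg T.gen T.restr hlam hφ b hb
  refine ⟨x, fun t => (h1 t).1, fun t => (h1 t).2.2, fun t => (h1 t).2.1, fun A hA => ?_⟩
  by_contra hAI
  obtain ⟨t, ht⟩ := h2 A hAI
  exact ht (hA t)

end Pool.Agent.Results.MP_16285c_ag.Towers
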